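import Pool.Agent.Helper67.NO.St4

/-!
Project NO, module CHH: 2-cocycles of a semisimple bracket are coboundaries.
-/

set_option autoImplicit false

namespace Pool.Agent.Helper84.NO

open Pool.Agent.Helper67.NO
open Matrix
open scoped Matrix.Norms.Frobenius ContDiff Topology ComplexOrder

variable {n : Type} [Fintype n] [DecidableEq n]

/-- Invariance of the Killing form. -/
private theorem inv0 {μ : n → Matrix n n ℂ} (h : IsLie μ) (l : n) :
    Kil μ * μ l + (μ l)ᵀ * Kil μ = 0 := by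
  ext i j
  have h1 : (Kil μ * μ l) i j = trace (μ i * br (μ l) (μ j)) := by
    rw [h.2 l j, Finset.mul_sum, trace_sum, mul_apply]
    refine Finset.sum_congr rfl fun k _ => ?_
    rw [mul_smul_comm, trace_smul, smul_eq_mul, Kil, mul_comm]
  have h2 : ((μ l)ᵀ * Kil μ) i j = trace (br (μ l) (μ i) * μ j) := by
    rw [h.2 l i, Finset.sum_mul, trace_sum, mul_apply]
    refine Finset.sum_congr rfl fun k _ => ?_
    rw [smul_mul_assoc, trace_smul, smul_eq_mul, Kil, transpose_apply]
  rw [Matrix.add_apply, h1, h2, Matrix.zero_apply]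
  unfold br
  rw [mul_sub, sub_mul, trace_sub, trace_sub, ← mul_assoc, ← mul_assoc, trace_mul_comm (μ l * μ i),
    trace_mul_comm (μ i * μ j) (μ l), ← mul_assoc, trace_mul_comm (μ j) (μ l * μ i)]
  ring

/-- Invariance of the dual form. -/
private theorem inv1 {μ : n → Matrix n n ℂ} (h : IsLie μ) (hK : (Kil μ).det ≠ 0) (l : n) :
    (Kil μ)⁻¹ * (μ l)ᵀ = -(μ l * (Kil μ)⁻¹) := by
  have hu : IsUnit (Kil μ).det := isUnit_iff_ne_zero.2 hK
  have h1 := nonsing_inv_mul (Kil μ) hu
  have h2 := mul_nonsing_inv (Kil μ) hu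
  have h0 := inv0 h l
  have h3 : (Kil μ)⁻¹ * (Kil μ * μ l + (μ l)ᵀ * Kil μ) * (Kil μ)⁻¹ = 0 := by
    rw [h0, mul_zero, zero_mul]
  have h4 : (Kil μ)⁻¹ * (Kil μ * μ l + (μ l)ᵀ * Kil μ) * (Kil μ)⁻¹ =
      ((Kil μ)⁻¹ * Kil μ) * μ l * (Kil μ)⁻¹ + (Kil μ)⁻¹ * (μ l)ᵀ * (Kil μ * (Kil μ)⁻¹) := by
    noncomm_ring
  rw [h4, h1, h2, one_mul, mul_one] at h3
  exact eq_neg_of_add_eq_zero_right h3

/-- Invariance in the form of sums. -/
private theorem inv2 {V : Type} [AddCommGroup V] [Module ℂ V] {μ : n → Matrix n n ℂ}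
    (h : IsLie μ) (hK : (Kil μ).det ≠ 0) (l : n) (G : n → n → V) :
    ∑ i, ∑ j, ∑ k, ((Kil μ)⁻¹ i j * μ l k j) • G k i =
      -∑ i, ∑ j, ∑ k, ((Kil μ)⁻¹ i j * μ l k i) • G j k := by
  have h1 : ∑ i, ∑ j, ∑ k, ((Kil μ)⁻¹ i j * μ l k j) • G k i =
      ∑ i, ∑ k, ((Kil μ)⁻¹ * (μ l)ᵀ) i k • G k i := by
    refine Finset.sum_congr rfl fun i _ => ?_
    rw [Finset.sum_comm]
    refine Finset.sum_congr rfl fun k _ => ?_
    rw [← Finset.sum_smul, mul_apply]
    rfl
  have h2 : ∑ i, ∑ j, ∑ k, ((Kil μ)⁻¹ i j * μ l k i) • G j k =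
      ∑ k, ∑ j, (μ l * (Kil μ)⁻¹) k j • G j k := by
    have e1 : ∀ i, ∑ j, ∑ k, ((Kil μ)⁻¹ i j * μ l k i) • G j k =
        ∑ k, ∑ j, ((Kil μ)⁻¹ i j * μ l k i) • G j k := fun i => Finset.sum_comm
    rw [Finset.sum_congr rfl fun i _ => e1 i, Finset.sum_comm]
    refine Finset.sum_congr rfl fun k _ => ?_
    rw [Finset.sum_comm]
    refine Finset.sum_congr rfl fun j _ => ?_
    rw [← Finset.sum_smul, mul_apply]
    congr 1
    exact Finset.sum_congr rfl fun i _ => mul_comm _ _
  rw [h1, h2, inv1 h hK l, ← Finset.sum_neg_distrib]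
  refine Finset.sum_congr rfl fun i _ => ?_
  rw [← Finset.sum_neg_distrib]
  refine Finset.sum_congr rfl fun k _ => ?_
  rw [Matrix.neg_apply, neg_smul]

/-- The Casimir element acts as the identity. -/
private theorem cas {μ : n → Matrix n n ℂ} (h : IsLie μ) (hK : (Kil μ).det ≠ 0) :
    ∑ i, ∑ j, (Kil μ)⁻¹ i j • (μ j * μ i) = 1 := by
  have hu : IsUnit (Kil μ).det := isUnit_iff_ne_zero.2 hK
  have h1 := nonsing_inv_mul (Kil μ) hu
  have key : Kil μ * ∑ i, ∑ j, (Kil μ)⁻¹ i j • (μ j * μ i) = Kil μ := by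
    rw [Finset.mul_sum]
    have e1 : ∀ i, Kil μ * ∑ j, (Kil μ)⁻¹ i j • (μ j * μ i) =
        -∑ j, (Kil μ)⁻¹ i j • ((μ j)ᵀ * Kil μ * μ i) := by
      intro i
      rw [Finset.mul_sum, ← Finset.sum_neg_distrib]
      refine Finset.sum_congr rfl fun j _ => ?_
      rw [mul_smul_comm, ← smul_neg, ← mul_assoc, eq_neg_of_add_eq_zero_left (inv0 h j), neg_mul]
    rw [Finset.sum_congr rfl fun i _ => e1 i]
    ext x y
    have sw : ∀ i j, ((μ j)ᵀ * Kil μ * μ i) x y = ((μ x)ᵀ * Kil μ * μ y) j i := by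
      intro i j
      simp only [mul_apply, transpose_apply]
      refine Finset.sum_congr rfl fun q _ => ?_
      rw [h.1 i y q]
      have e2 : ∑ p, μ j p x * Kil μ p q = -∑ p, μ x p j * Kil μ p q := by
        rw [← Finset.sum_neg_distrib]
        refine Finset.sum_congr rfl fun p _ => ?_
        rw [h.1 j x p, neg_mul]
      rw [e2]
      ring
    have e3 : (∑ i, -∑ j, (Kil μ)⁻¹ i j • ((μ j)ᵀ * Kil μ * μ i)) x y =
        -trace ((Kil μ)⁻¹ * ((μ x)ᵀ * Kil μ * μ y)) := by
      rw [Finset.sum_neg_distrib, Matrix.neg_apply, Matrix.sum_apply]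
      congr 1
      unfold trace
      refine Finset.sum_congr rfl fun i _ => ?_
      rw [Matrix.sum_apply, diag_apply, mul_apply]
      refine Finset.sum_congr rfl fun j _ => ?_
      rw [Matrix.smul_apply, smul_eq_mul, sw i j]
    rw [e3]
    have e4 : (μ x)ᵀ * Kil μ = -(Kil μ * μ x) := by
      rw [eq_neg_iff_add_eq_zero, add_comm]
      exact inv0 h x
    rw [e4, neg_mul, mul_neg, trace_neg, neg_neg, ← mul_assoc, ← mul_assoc, h1, one_mul]
    rfl
  calc ∑ i, ∑ j, (Kil μ)⁻¹ i j • (μ j * μ i)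
      = (Kil μ)⁻¹ * (Kil μ * ∑ i, ∑ j, (Kil μ)⁻¹ i j • (μ j * μ i)) := by
        rw [← mul_assoc, h1, one_mul]
    _ = 1 := by rw [key, h1]

theorem pCHH : StCHH := by
  intro n _ _ μ φ h hK hφ hc
  obtain ⟨K', hK'⟩ : ∃ K', K' = (Kil μ)⁻¹ := ⟨_, rfl⟩
  obtain ⟨ψ, hψ⟩ : ∃ ψ : Matrix n n ℂ, ψ = ∑ i, ∑ j, K' i j • (μ j * φ i) := ⟨_, rfl⟩
  refine ⟨-ψ, ?_⟩
  funext l
  -- the first cancellation
  have c1 : ∑ i, ∑ j, K' i j • ((∑ k, μ j k l • (μ k * φ i)) + ∑ k, μ i k l • (μ j * φ k)) = 0 := by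
    have g := inv2 h hK l (fun a b => μ a * φ b)
    rw [← hK'] at g
    have e1 : ∑ i, ∑ j, K' i j • (∑ k, μ j k l • (μ k * φ i)) =
        -∑ i, ∑ j, ∑ k, (K' i j * μ l k j) • (μ k * φ i) := by
      rw [← Finset.sum_neg_distrib]
      refine Finset.sum_congr rfl fun i _ => ?_
      rw [← Finset.sum_neg_distrib]
      refine Finset.sum_congr rfl fun j _ => ?_
      rw [← Finset.sum_neg_distrib, Finset.smul_sum]
      refine Finset.sum_congr rfl fun k _ => ?_
      rw [h.1 j l k, smul_smul, mul_neg, neg_smul]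
    have e2 : ∑ i, ∑ j, K' i j • (∑ k, μ i k l • (μ j * φ k)) =
        -∑ i, ∑ j, ∑ k, (K' i j * μ l k i) • (μ j * φ k) := by
      rw [← Finset.sum_neg_distrib]
      refine Finset.sum_congr rfl fun i _ => ?_
      rw [← Finset.sum_neg_distrib]
      refine Finset.sum_congr rfl fun j _ => ?_
      rw [← Finset.sum_neg_distrib, Finset.smul_sum]
      refine Finset.sum_congr rfl fun k _ => ?_
      rw [h.1 i l k, smul_smul, mul_neg, neg_smul]
    have e3 : ∑ i, ∑ j, K' i j • ((∑ k, μ j k l • (μ k * φ i)) + ∑ k, μ i k l • (μ j * φ k)) =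
        ∑ i, ∑ j, K' i j • (∑ k, μ j k l • (μ k * φ i)) +
          ∑ i, ∑ j, K' i j • (∑ k, μ i k l • (μ j * φ k)) := by
      rw [← Finset.sum_add_distrib]
      refine Finset.sum_congr rfl fun i _ => ?_
      rw [← Finset.sum_add_distrib]
      exact Finset.sum_congr rfl fun j _ => smul_add _ _ _
    rw [e3, e1, e2, g]
    abel
  -- the second cancellation
  have c2 : ∑ i, ∑ j, K' i j • (μ j * φ l * μ i + ∑ k, φ i k l • (μ k * μ j)) = 0 := by
    ext x z
    have g := inv2 h hK z (fun a b => (μ a * φ l) x b)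
    rw [← hK'] at g
    have e1 : (∑ i, ∑ j, K' i j • (μ j * φ l * μ i)) x z =
        -∑ i, ∑ j, ∑ k, (K' i j * μ z k i) • (μ j * φ l) x k := by
      rw [Matrix.sum_apply, ← Finset.sum_neg_distrib]
      refine Finset.sum_congr rfl fun i _ => ?_
      rw [Matrix.sum_apply, ← Finset.sum_neg_distrib]
      refine Finset.sum_congr rfl fun j _ => ?_
      rw [Matrix.smul_apply, mul_apply, ← Finset.sum_neg_distrib, Finset.smul_sum]
      refine Finset.sum_congr rfl fun k _ => ?_
      rw [h.1 i z k]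
      simp only [smul_eq_mul]
      ring
    have e2 : (∑ i, ∑ j, K' i j • (∑ k, φ i k l • (μ k * μ j))) x z =
        -∑ i, ∑ j, ∑ k, (K' i j * μ z k j) • (μ k * φ l) x i := by
      rw [Matrix.sum_apply, ← Finset.sum_neg_distrib]
      refine Finset.sum_congr rfl fun i _ => ?_
      rw [Matrix.sum_apply, ← Finset.sum_neg_distrib]
      refine Finset.sum_congr rfl fun j _ => ?_
      rw [Matrix.smul_apply, Matrix.sum_apply]
      have e3 : ∀ k, (φ i k l • (μ k * μ j)) x z =
          ∑ q, -(μ z q j * (μ q x k * φ l k i)) := by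
        intro k
        rw [Matrix.smul_apply, mul_apply, smul_eq_mul, Finset.mul_sum]
        refine Finset.sum_congr rfl fun q _ => ?_
        rw [hφ i l k, h.1 k q x, h.1 j z q]
        ring
      rw [Finset.sum_congr rfl fun k _ => e3 k, Finset.sum_comm, ← Finset.sum_neg_distrib,
        Finset.smul_sum]
      refine Finset.sum_congr rfl fun q _ => ?_
      rw [mul_apply]
      simp only [smul_eq_mul, Finset.mul_sum, ← Finset.sum_neg_distrib]
      refine Finset.sum_congr rfl fun k _ => ?_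
      ring
    have e3 : ∑ i, ∑ j, K' i j • (μ j * φ l * μ i + ∑ k, φ i k l • (μ k * μ j)) =
        ∑ i, ∑ j, K' i j • (μ j * φ l * μ i) +
          ∑ i, ∑ j, K' i j • (∑ k, φ i k l • (μ k * μ j)) := by
      rw [← Finset.sum_add_distrib]
      refine Finset.sum_congr rfl fun i _ => ?_
      rw [← Finset.sum_add_distrib]
      exact Finset.sum_congr rfl fun j _ => smul_add _ _ _
    rw [e3, Matrix.add_apply, e1, e2, Matrix.zero_apply]
    rw [g]
    abel
  -- the Casimir element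
  have c3 : ∑ i, ∑ j, K' i j • (μ j * μ i * φ l) = φ l := by
    have g := cas h hK
    rw [← hK'] at g
    have e1 : ∑ i, ∑ j, K' i j • (μ j * μ i * φ l) =
        (∑ i, ∑ j, K' i j • (μ j * μ i)) * φ l := by
      rw [Finset.sum_mul]
      refine Finset.sum_congr rfl fun i _ => ?_
      rw [Finset.sum_mul]
      exact Finset.sum_congr rfl fun j _ => (smul_mul_assoc _ _ _).symm
    rw [e1, g, one_mul]
  -- the pointwise identity
  have step : ∀ i j, μ l * (μ j * φ i) - μ j * φ i * μ l + ∑ k, φ i k l • br (μ j) (μ k) =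
      μ j * μ i * φ l - ((∑ k, μ j k l • (μ k * φ i)) + ∑ k, μ i k l • (μ j * φ k)) -
        (μ j * φ l * μ i + ∑ k, φ i k l • (μ k * μ j)) := by
    intro i j
    have a1 : (μ j * μ l - μ l * μ j) * φ i = ∑ k, μ j k l • (μ k * φ i) := by
      have := h.2 j l
      unfold br at this
      rw [this, Finset.sum_mul]
      exact Finset.sum_congr rfl fun k _ => smul_mul_assoc _ _ _
    have a2 : μ j * (μ i * φ l - φ l * μ i + (φ i * μ l - μ l * φ i)) =
        (∑ k, μ i k l • (μ j * φ k)) + ∑ k, φ i k l • (μ j * μ k) := by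
      have := hc i l
      unfold br at this
      rw [this, Finset.mul_sum, ← Finset.sum_add_distrib]
      refine Finset.sum_congr rfl fun k _ => ?_
      rw [mul_add, mul_smul_comm, mul_smul_comm]
    have a3 : ∑ k, φ i k l • br (μ j) (μ k) =
        ∑ k, φ i k l • (μ j * μ k) - ∑ k, φ i k l • (μ k * μ j) := by
      rw [← Finset.sum_sub_distrib]
      exact Finset.sum_congr rfl fun k _ => smul_sub _ _ _
    rw [a3, ← a1]
    have a4 : ∑ k, φ i k l • (μ j * μ k) =
        μ j * (μ i * φ l - φ l * μ i + (φ i * μ l - μ l * φ i)) - ∑ k, μ i k l • (μ j * φ k) := by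
      rw [a2]
      abel
    rw [a4]
    noncomm_ring
  have tot : μ l * ψ - ψ * μ l + ∑ j, ψ j l • μ j = φ l := by
    have s1 : μ l * ψ = ∑ i, ∑ j, K' i j • (μ l * (μ j * φ i)) := by
      rw [hψ, Finset.mul_sum]
      refine Finset.sum_congr rfl fun i _ => ?_
      rw [Finset.mul_sum]
      exact Finset.sum_congr rfl fun j _ => mul_smul_comm _ _ _
    have s2 : ψ * μ l = ∑ i, ∑ j, K' i j • (μ j * φ i * μ l) := by
      rw [hψ, Finset.sum_mul]
      refine Finset.sum_congr rfl fun i _ => ?_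
      rw [Finset.sum_mul]
      exact Finset.sum_congr rfl fun j _ => smul_mul_assoc _ _ _
    have s3 : ∑ j, ψ j l • μ j = ∑ i, ∑ j, K' i j • (∑ k, φ i k l • br (μ j) (μ k)) := by
      have t1 : ∀ q, ψ q l • μ q = ∑ i, ∑ j, K' i j • (∑ k, φ i k l • (μ j q k • μ q)) := by
        intro q
        have : ψ q l = ∑ i, ∑ j, K' i j * (∑ k, μ j q k * φ i k l) := by
          rw [hψ, Matrix.sum_apply]
          refine Finset.sum_congr rfl fun i _ => ?_
          rw [Matrix.sum_apply]
          refine Finset.sum_congr rfl fun j _ => ?_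
          rw [Matrix.smul_apply, smul_eq_mul, mul_apply]
        rw [this, Finset.sum_smul]
        refine Finset.sum_congr rfl fun i _ => ?_
        rw [Finset.sum_smul]
        refine Finset.sum_congr rfl fun j _ => ?_
        rw [mul_smul, Finset.sum_smul]
        congr 1
        refine Finset.sum_congr rfl fun k _ => ?_
        rw [smul_smul, mul_comm]
      rw [Finset.sum_congr rfl fun q _ => t1 q, Finset.sum_comm]
      refine Finset.sum_congr rfl fun i _ => ?_
      rw [Finset.sum_comm]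
      refine Finset.sum_congr rfl fun j _ => ?_
      rw [← Finset.smul_sum]
      congr 1
      rw [Finset.sum_comm]
      refine Finset.sum_congr rfl fun k _ => ?_
      rw [← Finset.smul_sum, h.2 j k]
    have s4 : μ l * ψ - ψ * μ l + ∑ j, ψ j l • μ j =
        ∑ i, ∑ j, K' i j • (μ l * (μ j * φ i) - μ j * φ i * μ l +
          ∑ k, φ i k l • br (μ j) (μ k)) := by
      rw [s1, s2, s3, ← Finset.sum_sub_distrib, ← Finset.sum_add_distrib]
      refine Finset.sum_congr rfl fun i _ => ?_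
      rw [← Finset.sum_sub_distrib, ← Finset.sum_add_distrib]
      refine Finset.sum_congr rfl fun j _ => ?_
      rw [← smul_sub, ← smul_add]
    rw [s4]
    have s5 : ∀ i j, K' i j • (μ l * (μ j * φ i) - μ j * φ i * μ l +
          ∑ k, φ i k l • br (μ j) (μ k)) =
        K' i j • (μ j * μ i * φ l) -
          K' i j • ((∑ k, μ j k l • (μ k * φ i)) + ∑ k, μ i k l • (μ j * φ k)) -
          K' i j • (μ j * φ l * μ i + ∑ k, φ i k l • (μ k * μ j)) := by
      intro i j
      rw [step i j, smul_sub, smul_sub]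
    rw [Finset.sum_congr rfl fun i _ => Finset.sum_congr rfl fun j _ => s5 i j]
    simp only [Finset.sum_sub_distrib]
    rw [c1, c2, c3, sub_zero, sub_zero]
  have fin : dact (-ψ) μ l = μ l * ψ - ψ * μ l + ∑ j, ψ j l • μ j := by
    unfold dact br
    have : ∑ j, (-ψ) j l • μ j = -∑ j, ψ j l • μ j := by
      rw [← Finset.sum_neg_distrib]
      refine Finset.sum_congr rfl fun j _ => ?_
      rw [Matrix.neg_apply, neg_smul]
    rw [this]
    noncomm_ring
  rw [fin, tot]

end Pool.Agent.Helper84.NO
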